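import Pool.Agent.W295.PR.Stm

/-!
Project PR: one step of the lifting lemma.
-/

set_option autoImplicit false

open Topology
open scoped IsMulCommutative

namespace Pool.Agent.W922.PR.LSTEP

open Pool.Agent.W295.PR

/-- ordered product -/
def lp {G : Type} [Monoid G] {r : ℕ} (x : Fin r → G) : G := (List.ofFn x).prod

theorem lp_zero {G : Type} [Monoid G] (x : Fin 0 → G) : lp x = 1 := by
  simp [lp]

theorem lp_succ {G : Type} [Monoid G] {r : ℕ} (x : Fin (r + 1) → G) :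
    lp x = x 0 * lp (fun j => x j.succ) := by
  unfold lp
  rw [List.ofFn_succ, List.prod_cons]

theorem lp_map {G Q : Type} [Group G] [Group Q] (φ : G →* Q) {r : ℕ} (x : Fin r → G) :
    φ (lp x) = lp (fun j => φ (x j)) := by
  unfold lp
  rw [map_list_prod, List.map_ofFn]
  rfl

theorem lp_mem {G : Type} [Group G] (H : Subgroup G) {r : ℕ} (x : Fin r → G)
    (h : ∀ j, x j ∈ H) : lp x ∈ H := by
  unfold lp
  apply Subgroup.list_prod_mem
  intro y hy
  rw [List.mem_ofFn] at hy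
  obtain ⟨j, rfl⟩ := hy
  exact h j

theorem lp_comm {V : Type} [CommGroup V] {r : ℕ} (x : Fin r → V) : lp x = ∏ j, x j := by
  unfold lp
  rw [List.prod_ofFn]

theorem lp_central {Q : Type} [Group Q] : ∀ {r : ℕ} (x c : Fin r → Q) (n : Fin r → ℤ),
    (∀ j, c j ∈ Subgroup.center Q) →
    lp (fun j => (x j * c j) ^ n j) = lp (fun j => x j ^ n j) * lp (fun j => c j ^ n j) := by
  intro r
  induction r with
  | zero => intro x c n _; simp [lp_zero]
  | succ r ih =>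
    intro x c n hc
    rw [lp_succ, lp_succ (fun j => x j ^ n j), lp_succ (fun j => c j ^ n j),
      ih (fun j => x j.succ) (fun j => c j.succ) (fun j => n j.succ) (fun j => hc _)]
    have h0 : Commute (x 0) (c 0) := (Subgroup.mem_center_iff.1 (hc 0) (x 0))
    rw [h0.mul_zpow]
    have h1 : c 0 ^ n 0 ∈ Subgroup.center Q := Subgroup.zpow_mem _ (hc 0) _
    have h2 := Subgroup.mem_center_iff.1 h1 (lp fun j : Fin r => x j.succ ^ n j.succ)
    calc x 0 ^ n 0 * c 0 ^ n 0 * ((lp fun j : Fin r => x j.succ ^ n j.succ) *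
          lp fun j : Fin r => c j.succ ^ n j.succ)
        = x 0 ^ n 0 * (c 0 ^ n 0 * (lp fun j : Fin r => x j.succ ^ n j.succ)) *
          lp (fun j : Fin r => c j.succ ^ n j.succ) := by group
      _ = _ := by rw [← h2]; group

section top
variable {G : Type} [Group G] [TopologicalSpace G] [IsTopologicalGroup G]

theorem lp_cont {r : ℕ} (n : Fin r → ℤ) : Continuous (fun x : Fin r → G => lp (fun j => x j ^ n j)) := by
  unfold lp
  simp only [List.ofFn_eq_map]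
  apply continuous_list_prod
  intro j _
  exact (continuous_apply j).zpow (n j)

theorem small {ι : Type} {r : ℕ} (m : Fin r → ι → ℤ) (V : Set G) (hV : V ∈ 𝓝 (1 : G))
    (F : Finset ι) : ∃ V' ∈ 𝓝 (1 : G), ∀ x : Fin r → G, (∀ j, x j ∈ V') → ∀ q ∈ F,
      lp (fun j => x j ^ (m j q)) ∈ V := by
  have h1 : ∀ q ∈ F, ∀ᶠ x : Fin r → G in 𝓝 1, lp (fun j => x j ^ (m j q)) ∈ V := by
    intro q _
    have hc := (lp_cont (G := G) (fun j => m j q)).tendsto 1
    have e : lp (fun j : Fin r => (1 : Fin r → G) j ^ (m j q)) = 1 := by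
      have : (fun j : Fin r => (1 : Fin r → G) j ^ (m j q)) = fun _ => 1 := by
        funext j; simp
      rw [this]
      simp [lp]
    rw [e] at hc
    exact hc hV
  have h2 : ∀ᶠ x : Fin r → G in 𝓝 1, ∀ q ∈ F, lp (fun j => x j ^ (m j q)) ∈ V :=
    (Filter.eventually_all_finset F).2 h1
  rw [nhds_pi, Filter.Eventually, Filter.mem_pi] at h2
  obtain ⟨I, hI, t, ht, hsub⟩ := h2
  refine ⟨⋂ j, t j, Filter.iInter_mem.2 ht, fun x hx => ?_⟩
  exact hsub (fun j _ => Set.mem_iInter.1 (hx j) j)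

end top

theorem BP_lp (h1 : S_BP) {R : Type} [AddCommGroup R] {G : Type} [Group G] (N : ℕ) (hN : 1 ≤ N) :
    ∀ {r : ℕ} (η : Fin r → G) (M : Fin r → R → ℤ) (d : ℕ), (∀ j, ZDeg d (M j)) → d ≤ N →
    BP N (fun q => lp (fun j => η j ^ (M j q))) := by
  obtain ⟨hmul, -, -, hpow, hconst⟩ := h1 R G N hN
  intro r
  induction r with
  | zero =>
    intro η M d _ _
    have : (fun q => lp (fun j : Fin 0 => η j ^ (M j q))) = fun _ => 1 := by
      funext q; exact lp_zero _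
    rw [this]
    exact hconst 1
  | succ r ih =>
    intro η M d hM hd
    have : (fun q => lp (fun j : Fin (r + 1) => η j ^ (M j q)))
        = (fun q => η 0 ^ (M 0 q)) * fun q => lp (fun j : Fin r => η j.succ ^ (M j.succ q)) := by
      funext q
      rw [lp_succ]
      rfl
    rw [this]
    exact hmul _ _ (hpow _ _ d (hM 0) hd) (ih _ _ d (fun j => hM j.succ) hd)

theorem PDeg_prod {R : Type} [AddCommGroup R] {V : Type} [CommGroup V] {r : ℕ} (v : Fin r → V) :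
    ∀ (d : ℕ) (m : Fin r → R → ℤ), (∀ j, ZDeg d (m j)) → PDeg d (fun q => ∏ j, v j ^ (m j q)) := by
  intro d
  induction d with
  | zero =>
    intro m hm h x
    exact Finset.prod_congr rfl (fun j _ => by rw [hm j h x])
  | succ d ih =>
    intro m hm h
    have e : (fun x => (∏ j, v j ^ (m j (x + h))) * (∏ j, v j ^ (m j x))⁻¹)
        = fun x => ∏ j, v j ^ (m j (x + h) - m j x) := by
      funext x
      rw [← Finset.prod_inv_distrib, ← Finset.prod_mul_distrib]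
      exact Finset.prod_congr rfl (fun j _ => by rw [zpow_sub])
    show PDeg d (fun x => (∏ j, v j ^ (m j (x + h))) * (∏ j, v j ^ (m j x))⁻¹)
    rw [e]
    exact ih (fun j x => m j (x + h) - m j x) (fun j => hm j h)

theorem main (h1 : S_BP) (h2 : S_T1) (h3 : S_NEWT) (h4 : S_WORD) (h5 : S_LCS) : S_Lstep := by
  intro D G _ _ _ H N i hN hlevel
  obtain ⟨N1, hN1, hlev⟩ := hlevel
  obtain ⟨r, m, w, NT, hm, hT⟩ := h2 D G (max N N1) (i + 1) (le_max_of_le_left hN)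
  obtain ⟨B, M, d', N0, hN0, hM, -, hNewt⟩ := h3 D NT
  have hN' : 1 ≤ max N1 (max d' 1) := le_max_of_le_left hN1
  refine ⟨max N1 (max d' 1), hN', ?_⟩
  intro V hV F
  -- enumeration of `B`
  obtain ⟨k, b, hb, hbB⟩ : ∃ (k : ℕ) (b : Fin k → RR D), (∀ j, b j ∈ B) ∧
      ∀ (W : Type) [CommGroup W] (f : RR D → W), ∏ β ∈ B, f β = ∏ j, f (b j) := by
    refine ⟨B.card, fun j => (B.equivFin.symm j : RR D), fun j => (B.equivFin.symm j).2, ?_⟩
    intro W _ f
    rw [← Finset.prod_coe_sort B f, ← Equiv.prod_comp B.equivFin.symm]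
  -- the neighbourhoods
  obtain ⟨Va, hVa, hVaV⟩ : ∃ Va ∈ 𝓝 (1 : G), ∀ x ∈ Va, ∀ y ∈ Va, x * y⁻¹ ∈ V := by
    have hc : Filter.Tendsto (fun p : G × G => p.1 * p.2⁻¹) (𝓝 ((1 : G), (1 : G))) (𝓝 1) := by
      have := (by fun_prop : Continuous (fun p : G × G => p.1 * p.2⁻¹)).tendsto ((1 : G), (1 : G))
      simpa using this
    have h := hc hV
    rw [nhds_prod_eq, Filter.mem_map, Filter.mem_prod_self_iff] at h
    obtain ⟨U, hU, hsub⟩ := h
    exact ⟨U, hU, fun x hx y hy => hsub (Set.mk_mem_prod hx hy)⟩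
  obtain ⟨Vb, hVb, hVbδ⟩ := small (fun (j : Fin k) q => M (b j) q) Va hVa F
  obtain ⟨Vc, hVc, hVcb⟩ : ∃ Vc ∈ 𝓝 (1 : G), ∀ x ∈ Vc, ∀ y ∈ Vc, x⁻¹ * y ∈ Vb := by
    have hc : Filter.Tendsto (fun p : G × G => p.1⁻¹ * p.2) (𝓝 ((1 : G), (1 : G))) (𝓝 1) := by
      have := (by fun_prop : Continuous (fun p : G × G => p.1⁻¹ * p.2)).tendsto ((1 : G), (1 : G))
      simpa using this
    have h := hc hVb
    rw [nhds_prod_eq, Filter.mem_map, Filter.mem_prod_self_iff] at h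
    obtain ⟨U, hU, hsub⟩ := h
    exact ⟨U, hU, fun x hx y hy => hsub (Set.mk_mem_prod hx hy)⟩
  classical
  obtain ⟨V2, hV2, hε⟩ := small m (Va ∩ Vc) (Filter.inter_mem hVa hVc) (F ∪ B)
  have hword : ∀ j, ∃ W ∈ 𝓝 (1 : G), ∃ E : Finset (RR D), ∀ f : RR D → G,
      (∀ q ∈ E, ∃ v ∈ W, ∃ z ∈ lcs G i, f q = v * z) →
      ∃ v ∈ V2, ∃ z ∈ lcs G i, FreeGroup.lift f (w j) = v * z :=
    fun j => h4 (RR D) G (lcs G i) inferInstance (w j) V2 hV2
  choose Wj hWj Ej hWE using hword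
  obtain ⟨W1, hW1, E1, hlev1⟩ := hlev (⋂ j, Wj j) (Filter.iInter_mem.2 hWj)
    (Finset.univ.biUnion Ej)
  refine ⟨W1 ∩ Vc, Filter.inter_mem hW1 hVc, E1 ∪ B, ?_⟩
  intro g hg hgE
  have hanti : lcs G (i + 1) ≤ lcs G i := Subgroup.lowerCentralSeries_antitone _ (Nat.le_succ i)
  obtain ⟨g1, hg1BP, hg1H, hg1u⟩ := hlev1 g hg (by
    intro q hq
    obtain ⟨x, hx, h, hh, z, hz, e⟩ := hgE q (Finset.mem_union_left _ hq)
    exact ⟨x, hx.1, h, hh, z, hanti hz, e⟩)
  -- `u`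
  obtain ⟨u, hu⟩ : ∃ u : RR D → G, u = g * g1⁻¹ := ⟨_, rfl⟩
  have huq : ∀ q, u q = g q * (g1 q)⁻¹ := fun q => by rw [hu]; rfl
  have huBP : BP (max N N1) u := by
    have k1 := h1 (RR D) G (max N N1) (le_max_of_le_left hN)
    have k2 := h1 (RR D) G N hN
    have k3 := h1 (RR D) G N1 hN1
    rw [hu]
    exact k1.1 _ _ (k2.2.2.1 _ (le_max_left _ _) _ hg)
      (k1.2.1 _ (k3.2.2.1 _ (le_max_right _ _) _ hg1BP))
  -- words
  have hwj : ∀ j, ∃ v ∈ V2, ∃ z ∈ lcs G i, FreeGroup.lift u (w j) = v * z := by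
    intro j
    apply hWE j u
    intro q hq
    obtain ⟨v, hv, z, hz, e⟩ := hg1u q (Finset.mem_biUnion.2 ⟨j, Finset.mem_univ _, hq⟩)
    exact ⟨v, Set.mem_iInter.1 hv j, z, hz, by rw [huq, e]⟩
  choose ε hεV z hzK hwz using hwj
  -- the quotient
  obtain ⟨π, hπ, hπ1⟩ : ∃ π : G →* G ⧸ lcs G (i + 1), Function.Surjective π ∧
      ∀ x, π x = 1 ↔ x ∈ lcs G (i + 1) :=
    ⟨QuotientGroup.mk' _, QuotientGroup.mk'_surjective _, fun x => QuotientGroup.eq_one_iff x⟩
  have hcen : ∀ x ∈ lcs G i, π x ∈ Subgroup.center (G ⧸ lcs G (i + 1)) := by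
    intro x hx
    rw [Subgroup.mem_center_iff]
    intro y
    obtain ⟨y, rfl⟩ := hπ y
    have k1 := h5 G 0 i y (Subgroup.mem_top y) x hx
    rw [zero_add, ← hπ1] at k1
    simp only [map_mul, map_inv] at k1
    rw [mul_inv_eq_one, mul_inv_eq_iff_eq_mul] at k1
    exact k1
  obtain ⟨ζ, hζdef⟩ : ∃ ζ : RR D → Subgroup.center (G ⧸ lcs G (i + 1)),
      ζ = fun q => ∏ j, (⟨π (z j), hcen _ (hzK j)⟩ : Subgroup.center (G ⧸ lcs G (i + 1))) ^ (m j q) :=
    ⟨_, rfl⟩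
  have hζ : ∀ q, (ζ q : G ⧸ lcs G (i + 1)) = lp (fun j => π (z j) ^ (m j q)) := by
    intro q
    rw [hζdef]
    simp only
    rw [← lp_comm]
    exact lp_map (Subgroup.center (G ⧸ lcs G (i + 1))).subtype _
  have hζN : ∀ q, ζ q = ∏ j, ζ (b j) ^ (M (b j) q) := by
    intro q
    have k1 := hNewt _ ζ (by rw [hζdef]; exact PDeg_prod _ NT m hm) q
    rw [k1, hbB]
  obtain ⟨e, he⟩ : ∃ e : RR D → G, e = fun q => lp (fun j => ε j ^ (m j q)) := ⟨_, rfl⟩
  have heV : ∀ q ∈ F ∪ B, e q ∈ Va ∩ Vc := by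
    intro q hq
    rw [he]
    exact hε ε hεV q hq
  have hπu : ∀ q, π (u q) = π (e q) * ζ q := by
    intro q
    have k1 := hT u huBP q
    rw [← hπ1, map_mul, map_inv, mul_inv_eq_one] at k1
    have k2 : π (List.ofFn fun j => FreeGroup.lift u (w j) ^ m j q).prod
        = lp (fun j => (π (ε j) * π (z j)) ^ (m j q)) := by
      have := lp_map π (fun j => FreeGroup.lift u (w j) ^ m j q)
      unfold lp at this ⊢
      rw [this]
      congr 2
      funext j
      rw [map_zpow, hwz, map_mul]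
    rw [k1, k2, lp_central _ _ _ (fun j => hcen _ (hzK j)), hζ, he, lp_map]
    congr 2
    funext j
    rw [map_zpow]
  -- the corrections
  have hcorr : ∀ j : Fin k, ∃ η ∈ H, ∃ x ∈ Vb, π η = π x * ζ (b j) := by
    intro j
    obtain ⟨x, hx, h, hh, y, hy, hgb⟩ := hgE (b j) (Finset.mem_union_right _ (hb j))
    refine ⟨h * (g1 (b j))⁻¹, H.mul_mem hh (H.inv_mem (hg1H _)), x⁻¹ * e (b j),
      hVcb x hx.2 _ (heV _ (Finset.mem_union_right _ (hb j))).2, ?_⟩
    have k1 := hπu (b j)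
    rw [huq, hgb] at k1
    simp only [map_mul, map_inv] at k1 ⊢
    rw [(hπ1 y).2 hy, mul_one] at k1
    rw [mul_assoc (π x)⁻¹, ← k1]
    group
  choose η hηH x hxV hηx using hcorr
  obtain ⟨g2, hg2⟩ : ∃ g2 : RR D → G, g2 = fun q => lp (fun j => η j ^ (M (b j) q)) := ⟨_, rfl⟩
  have hg2π : ∀ q, π (g2 q) = π (lp (fun j => x j ^ (M (b j) q))) * ζ q := by
    intro q
    rw [hg2]
    simp only
    rw [lp_map]
    have k1 : (fun j => π (η j ^ (M (b j) q))) = fun j => (π (x j) * ζ (b j)) ^ (M (b j) q) := by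
      funext j
      rw [map_zpow, hηx]
    rw [k1, lp_central _ _ _ (fun j => (ζ (b j)).2), lp_map]
    congr 1
    · congr 1
      funext j
      rw [map_zpow]
    · rw [hζN q, ← lp_comm]
      exact (lp_map (Subgroup.center (G ⧸ lcs G (i + 1))).subtype
        (fun j => ζ (b j) ^ (M (b j) q))).symm
  refine ⟨g2 * g1, ?_, ?_, ?_⟩
  · have k1 := h1 (RR D) G _ hN'
    have k3 := h1 (RR D) G N1 hN1
    refine k1.1 _ _ ?_ (k3.2.2.1 _ (le_max_left _ _) _ hg1BP)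
    rw [hg2]
    exact BP_lp h1 _ hN' _ _ d' (fun j => hM (b j)) ((le_max_left _ _).trans (le_max_right _ _))
  · intro q
    refine H.mul_mem ?_ (hg1H q)
    rw [hg2]
    exact lp_mem H _ (fun j => H.zpow_mem (hηH j) _)
  · intro q hq
    refine ⟨e q * (lp (fun j => x j ^ (M (b j) q)))⁻¹,
      hVaV _ (heV q (Finset.mem_union_left _ hq)).1 _ (hVbδ x hxV q hq),
      (e q * (lp (fun j => x j ^ (M (b j) q)))⁻¹)⁻¹ * (g q * ((g2 * g1) q)⁻¹), ?_, by group⟩
    rw [← hπ1]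
    have k0 : g q * ((g2 * g1) q)⁻¹ = u q * (g2 q)⁻¹ := by
      rw [huq, Pi.mul_apply]; group
    rw [k0, map_mul, map_mul, map_inv, map_mul, map_inv, map_inv, hπu, hg2π]
    group

end Pool.Agent.W922.PR.LSTEP
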